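import Mathlib

set_option autoImplicit false

open TensorProduct

namespace Pool.Agent.Helper37.OC

/-- The field `K` is ample (large in the sense of Pop), in coordinates: for every system `P` of `m`
polynomial equations in `m + 1` variables `X, Y_1, ..., Y_m` which is satisfied by the origin and
whose Jacobian matrix with respect to `Y` is invertible at the origin, the system has infinitely
many solutions in `K`. (Equivalently: every smooth curve over `K` with a `K`-point has infinitely
many `K`-points.) -/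
def Ample (K : Type) [Field K] : Prop :=
  ∀ (J : Type) [Fintype J] [DecidableEq J] (P : J → MvPolynomial (Option J) K),
    (∀ i, MvPolynomial.eval 0 (P i) = 0) →
    (Matrix.of fun i j => MvPolynomial.eval 0 (MvPolynomial.pderiv (some j) (P i))).det ≠ 0 →
    {x : Option J → K | ∀ i, MvPolynomial.eval x (P i) = 0}.Infinite

/-- Evaluation in the dual numbers. -/
theorem aeval_dual {σ K : Type} [Field K] [DecidableEq σ] (j : σ) (p : MvPolynomial σ K) :
    MvPolynomial.aeval (fun i : σ => if i = j then (DualNumber.eps : DualNumber K) else 0) p =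
      TrivSqZeroExt.inl (MvPolynomial.eval 0 p) +
        TrivSqZeroExt.inr (MvPolynomial.eval 0 (MvPolynomial.pderiv j p)) := by
  induction p using MvPolynomial.induction_on with
  | C a =>
    simp
    rfl
  | add p q hp hq =>
    rw [map_add, hp, hq]
    simp only [map_add, TrivSqZeroExt.inl_add, TrivSqZeroExt.inr_add]
    abel
  | mul_X p n hp =>
    rw [map_mul, hp, MvPolynomial.aeval_X]
    by_cases h : n = j
    · subst h
      ext <;> simp [Derivation.leibniz]
    · rw [if_neg h]
      ext <;> simp [Derivation.leibniz, h, MvPolynomial.pderiv_X]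

section Weil

variable {K E : Type} [Field K] [Field E] [Algebra K E] {ι : Type} (e : Module.Basis ι K E)
  {A R : Type} [CommRing A] [Algebra K A] [CommRing R] [Algebra K R] (y : A →ₐ[K] R)

/-- Naturality of the coordinates in `A ⊗ E`. -/
theorem repr_map (s : A ⊗[K] E) (l : ι) :
    (Algebra.TensorProduct.basis R e).repr
      (Algebra.TensorProduct.map y (AlgHom.id K E) s) l =
      y ((Algebra.TensorProduct.basis A e).repr s l) := by
  induction s using TensorProduct.induction_on with
  | zero => simp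
  | add s t hs ht => rw [map_add, map_add, map_add, Finsupp.add_apply, Finsupp.add_apply, hs, ht,
      map_add]
  | tmul a m =>
    rw [Algebra.TensorProduct.map_tmul, Algebra.TensorProduct.basis_repr_tmul,
      Algebra.TensorProduct.basis_repr_tmul]
    simp

/-- The value of a polynomial over `E` in coordinates. -/
noncomputable def gen (ev : Polynomial (Polynomial E)) (x : A) (a : A ⊗[K] E) : A ⊗[K] E :=
  (ev.map (Polynomial.eval₂RingHom
    ((Algebra.TensorProduct.includeRight : E →ₐ[K] A ⊗[K] E) : E →+* A ⊗[K] E)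
    (x ⊗ₜ[K] (1 : E)))).eval a

theorem map_gen (ev : Polynomial (Polynomial E)) (x : A) (a : A ⊗[K] E) :
    Algebra.TensorProduct.map y (AlgHom.id K E) (gen ev x a) =
      gen ev (y x) (Algebra.TensorProduct.map y (AlgHom.id K E) a) := by
  unfold gen
  let Y : A ⊗[K] E →+* R ⊗[K] E :=
    (Algebra.TensorProduct.map y (AlgHom.id K E) : A ⊗[K] E →ₐ[K] R ⊗[K] E)
  have h1 : Y.comp (Polynomial.eval₂RingHom
      ((Algebra.TensorProduct.includeRight : E →ₐ[K] A ⊗[K] E) : E →+* A ⊗[K] E)
      (x ⊗ₜ[K] (1 : E))) = Polynomial.eval₂RingHom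
      ((Algebra.TensorProduct.includeRight : E →ₐ[K] R ⊗[K] E) : E →+* R ⊗[K] E)
      (y x ⊗ₜ[K] (1 : E)) := by
    refine Polynomial.ringHom_ext (fun c => ?_) ?_
    · simp [Y]
    · simp [Y]
  rw [← h1, ← Polynomial.map_map]
  exact (Polynomial.eval_map_apply _ _ |>.symm)

theorem gen_includeRight (ev : Polynomial (Polynomial E)) (c : K) (a : E) :
    gen ev (algebraMap K A c) ((1 : A) ⊗ₜ[K] a) =
      (1 : A) ⊗ₜ[K] ((ev.map (Polynomial.evalRingHom (algebraMap K E c))).eval a) := by
  unfold gen
  let iR : E →+* A ⊗[K] E :=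
    ((Algebra.TensorProduct.includeRight : E →ₐ[K] A ⊗[K] E) : E →+* A ⊗[K] E)
  have h1 : iR.comp (Polynomial.evalRingHom (algebraMap K E c)) =
      Polynomial.eval₂RingHom iR (algebraMap K A c ⊗ₜ[K] (1 : E)) := by
    refine Polynomial.ringHom_ext (fun d => ?_) ?_
    · simp
    · simp only [RingHom.comp_apply, Polynomial.coe_evalRingHom, Polynomial.eval_X,
        Polynomial.coe_eval₂RingHom, Polynomial.eval₂_X]
      show (1 : A) ⊗ₜ[K] algebraMap K E c = _
      rw [Algebra.algebraMap_eq_smul_one, Algebra.algebraMap_eq_smul_one,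
        TensorProduct.smul_tmul]
  show Polynomial.eval (iR a) (Polynomial.map (Polynomial.eval₂RingHom iR
    (algebraMap K A c ⊗ₜ[K] (1 : E))) ev) = iR _
  rw [← h1, ← Polynomial.map_map, Polynomial.eval_map_apply]

theorem gen_dual (ev : Polynomial (Polynomial E)) (ε : R) (hε : ε * ε = 0) (a m : E) :
    gen ev (0 : R) ((1 : R) ⊗ₜ[K] a + ε ⊗ₜ[K] m) =
      (1 : R) ⊗ₜ[K] ((ev.map (Polynomial.evalRingHom 0)).eval a) +
      ε ⊗ₜ[K] ((Polynomial.derivative (ev.map (Polynomial.evalRingHom 0))).eval a * m) := by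
  have h0 := gen_includeRight (K := K) (A := R) ev 0 a
  rw [map_zero, map_zero] at h0
  rw [← h0]
  unfold gen
  let iR : E →+* R ⊗[K] E :=
    ((Algebra.TensorProduct.includeRight : E →ₐ[K] R ⊗[K] E) : E →+* R ⊗[K] E)
  have h1 : iR.comp (Polynomial.evalRingHom 0) =
      Polynomial.eval₂RingHom iR ((0 : R) ⊗ₜ[K] (1 : E)) := by
    refine Polynomial.ringHom_ext (fun d => ?_) ?_
    · simp
    · simp
  have hsq : (ε ⊗ₜ[K] m) ^ 2 = 0 := by
    rw [pow_two, Algebra.TensorProduct.tmul_mul_tmul, hε, zero_tmul]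
  rw [Polynomial.eval_add_of_sq_eq_zero _ _ _ hsq]
  congr 1
  have h3 : Polynomial.eval ((1 : R) ⊗ₜ[K] a) (Polynomial.map iR
      (Polynomial.derivative (Polynomial.map (Polynomial.evalRingHom 0) ev))) =
      iR ((Polynomial.derivative (Polynomial.map (Polynomial.evalRingHom 0) ev)).eval a) := by
    show Polynomial.eval (iR a) (Polynomial.map iR _) = _
    rw [Polynomial.eval_map_apply]
  show Polynomial.eval ((1 : R) ⊗ₜ[K] a) (Polynomial.derivative (ev.map
    (Polynomial.eval₂RingHom iR ((0 : R) ⊗ₜ[K] (1 : E))))) * ε ⊗ₜ[K] m = _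
  rw [← h1, ← Polynomial.map_map, Polynomial.derivative_map, h3]
  show ((1 : R) ⊗ₜ[K] _) * _ = _
  rw [Algebra.TensorProduct.tmul_mul_tmul, one_mul]

end Weil

section Main

variable {K E : Type} [Field K] [Field E] [Algebra K E] {ι : Type} [Fintype ι]
  (e : Module.Basis ι K E) (f : Bool → Polynomial (Polynomial E)) (x₀ : E)

/-- The generic point `x₀ + Σ Y_(b,l) e_l`. -/
noncomputable def pt (b : Bool) : MvPolynomial (Option (Bool × ι)) K ⊗[K] E :=
  1 ⊗ₜ[K] x₀ + ∑ l, MvPolynomial.X (some (b, l)) ⊗ₜ[K] e l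

/-- The equations of the Weil restriction. -/
noncomputable def sys (j : Bool × ι) : MvPolynomial (Option (Bool × ι)) K :=
  (Algebra.TensorProduct.basis _ e).repr
    (gen (f j.1) (MvPolynomial.X none : MvPolynomial (Option (Bool × ι)) K) (pt e x₀ j.1)) j.2

theorem map_pt {R : Type} [CommRing R] [Algebra K R]
    (y : MvPolynomial (Option (Bool × ι)) K →ₐ[K] R) (b : Bool) :
    Algebra.TensorProduct.map y (AlgHom.id K E) (pt e x₀ b) =
      1 ⊗ₜ[K] x₀ + ∑ l, y (MvPolynomial.X (some (b, l))) ⊗ₜ[K] e l := by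
  unfold pt
  rw [map_add, map_sum, Algebra.TensorProduct.map_tmul, map_one, AlgHom.id_apply]
  simp only [Algebra.TensorProduct.map_tmul, AlgHom.id_apply]

theorem aeval_sys {R : Type} [CommRing R] [Algebra K R]
    (y : MvPolynomial (Option (Bool × ι)) K →ₐ[K] R) (j : Bool × ι) :
    y (sys e f x₀ j) = (Algebra.TensorProduct.basis R e).repr
      (gen (f j.1) (y (MvPolynomial.X none))
        (1 ⊗ₜ[K] x₀ + ∑ l, y (MvPolynomial.X (some (j.1, l))) ⊗ₜ[K] e l)) j.2 := by
  unfold sys
  rw [← repr_map, map_gen, map_pt]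

theorem eval_sys (x : Option (Bool × ι) → K) (j : Bool × ι) :
    MvPolynomial.eval x (sys e f x₀ j) = e.repr
      (((f j.1).map (Polynomial.evalRingHom (algebraMap K E (x none)))).eval
        (x₀ + ∑ l, x (some (j.1, l)) • e l)) j.2 := by
  have h := aeval_sys e f x₀ (MvPolynomial.aeval x) j
  rw [MvPolynomial.aeval_eq_eval] at h
  have h1 : (MvPolynomial.eval x) (sys e f x₀ j) = _ := h
  rw [h1]
  simp only [MvPolynomial.eval_X]
  have h2 : (1 : K) ⊗ₜ[K] x₀ + ∑ l, x (some (j.1, l)) ⊗ₜ[K] e l =
      (1 : K) ⊗ₜ[K] (x₀ + ∑ l, x (some (j.1, l)) • e l) := by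
    rw [tmul_add, tmul_sum]
    congr 1
    refine Finset.sum_congr rfl fun l _ => ?_
    rw [← smul_tmul, smul_eq_mul, mul_one]
  rw [h2]
  have h3 := gen_includeRight (K := K) (A := K) (f j.1) (x none)
    (x₀ + ∑ l, x (some (j.1, l)) • e l)
  rw [Algebra.algebraMap_self_apply] at h3
  rw [h3, Algebra.TensorProduct.basis_repr_tmul]
  simp

theorem pderiv_sys [DecidableEq ι] (j j' : Bool × ι) :
    MvPolynomial.eval 0 (MvPolynomial.pderiv (some j') (sys e f x₀ j)) =
      if j.1 = j'.1 then e.repr ((Polynomial.derivative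
        ((f j.1).map (Polynomial.evalRingHom 0))).eval x₀ * e j'.2) j.2 else 0 := by
  have h := aeval_sys e f x₀ (MvPolynomial.aeval (fun i : Option (Bool × ι) =>
    if i = some j' then (DualNumber.eps : DualNumber K) else 0)) j
  rw [aeval_dual] at h
  simp only [MvPolynomial.aeval_X, reduceCtorEq, if_false, Option.some.injEq] at h
  have h2 : (1 : DualNumber K) ⊗ₜ[K] x₀ + ∑ l, (if (j.1, l) = j' then
      (DualNumber.eps : DualNumber K) else 0) ⊗ₜ[K] e l =
      (1 : DualNumber K) ⊗ₜ[K] x₀ + (DualNumber.eps : DualNumber K) ⊗ₜ[K]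
        (if j.1 = j'.1 then e j'.2 else 0) := by
    congr 1
    by_cases hb : j.1 = j'.1
    · rw [if_pos hb, Finset.sum_eq_single j'.2]
      · rw [hb, if_pos rfl]
      · intro l _ hl
        rw [if_neg, zero_tmul]
        intro h3
        exact hl (by rw [← h3])
      · intro hl
        exact absurd (Finset.mem_univ _) hl
    · rw [if_neg hb, tmul_zero]
      refine Finset.sum_eq_zero fun l _ => ?_
      rw [if_neg, zero_tmul]
      intro h3
      exact hb (by rw [← h3])
  rw [h2, gen_dual (f j.1) _ DualNumber.eps_mul_eps] at h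
  rw [map_add, Finsupp.add_apply, Algebra.TensorProduct.basis_repr_tmul,
    Algebra.TensorProduct.basis_repr_tmul] at h
  have h4 := congrArg TrivSqZeroExt.snd h
  simp only [TrivSqZeroExt.snd_add, TrivSqZeroExt.snd_inl, TrivSqZeroExt.snd_inr, zero_add] at h4
  have hsnd : ∀ c : K, TrivSqZeroExt.snd (algebraMap K (DualNumber K) c) = 0 := fun c => rfl
  have hfst : ∀ c : K, TrivSqZeroExt.fst (algebraMap K (DualNumber K) c) = c := fun c => rfl
  rw [h4]
  by_cases hb : j.1 = j'.1
  · rw [if_pos hb, if_pos hb]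
    simp [hsnd, hfst]
  · rw [if_neg hb, if_neg hb]
    simp [hsnd]

theorem det_sys [DecidableEq ι]
    (h₁ : ∀ b, (Polynomial.derivative ((f b).map (Polynomial.evalRingHom 0))).eval x₀ ≠ 0) :
    (Matrix.of fun i j => MvPolynomial.eval 0
      (MvPolynomial.pderiv (some j) (sys e f x₀ i))).det ≠ 0 := by
  intro hdet
  obtain ⟨v, hv0, hv⟩ := Matrix.exists_mulVec_eq_zero_iff.2 hdet
  apply hv0
  have key : ∀ b, (Polynomial.derivative ((f b).map (Polynomial.evalRingHom 0))).eval x₀ *
      ∑ m, v (b, m) • e m = 0 := by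
    intro b
    apply e.repr.injective
    ext l
    have h1 := congrFun hv (b, l)
    simp only [Matrix.mulVec, dotProduct, Matrix.of_apply, pderiv_sys, Pi.zero_apply] at h1
    rw [Fintype.sum_prod_type, Finset.sum_eq_single b] at h1
    · rw [Finset.mul_sum, map_sum, Finsupp.coe_finsetSum, Finset.sum_apply]
      simp only [if_true] at h1
      rw [map_zero, Finsupp.zero_apply, ← h1]
      refine Finset.sum_congr rfl fun m _ => ?_
      rw [mul_smul_comm, map_smul, Finsupp.smul_apply, smul_eq_mul, mul_comm]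
    · intro b' _ hb'
      refine Finset.sum_eq_zero fun m _ => ?_
      rw [if_neg (Ne.symm hb'), zero_mul]
    · intro hb
      exact absurd (Finset.mem_univ _) hb
  funext ⟨b, m⟩
  have h2 : ∑ m, v (b, m) • e m = 0 := (mul_eq_zero.1 (key b)).resolve_left (h₁ b)
  have h3 := Fintype.linearIndependent_iff.1 e.linearIndependent (fun m => v (b, m)) h2 m
  exact h3

end Main

/-- Over an ample field `K` two curves over a finite extension `E` with smooth points above
`X = 0` have points with a common nonzero value of `X` in `K`. -/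
theorem exists_zero_pair {K E : Type} [Field K] [Field E] [Algebra K E] [FiniteDimensional K E]
    (hK : Ample K) (f : Bool → Polynomial (Polynomial E)) (x₀ : E)
    (h₀ : ∀ b, ((f b).map (Polynomial.evalRingHom 0)).eval x₀ = 0)
    (h₁ : ∀ b, (Polynomial.derivative ((f b).map (Polynomial.evalRingHom 0))).eval x₀ ≠ 0) :
    ∃ s : K, s ≠ 0 ∧ ∀ b, ∃ x : E,
      ((f b).map (Polynomial.evalRingHom (algebraMap K E s))).eval x = 0 := by
  classical
  let e := Module.finBasis K E
  let F : (Option (Bool × Fin (Module.finrank K E)) → K) → Bool → E :=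
    fun x b => x₀ + ∑ l, x (some (b, l)) • e l
  have hinf := hK (Bool × Fin (Module.finrank K E)) (sys e f x₀) (by
    intro j
    rw [eval_sys]
    simp [h₀]) (det_sys e f x₀ h₁)
  by_contra hcon
  push Not at hcon
  apply hinf
  have hZ : ∀ x : Option (Bool × Fin (Module.finrank K E)) → K,
      (∀ i, MvPolynomial.eval x (sys e f x₀ i) = 0) → ∀ b,
      ((f b).map (Polynomial.evalRingHom (algebraMap K E (x none)))).eval (F x b) = 0 := by
    intro x hx b
    apply e.repr.injective
    ext l
    have := hx (b, l)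
    rw [eval_sys] at this
    rw [this, map_zero, Finsupp.zero_apply]
  have hZ0 : ∀ x : Option (Bool × Fin (Module.finrank K E)) → K,
      (∀ i, MvPolynomial.eval x (sys e f x₀ i) = 0) → x none = 0 := by
    intro x hx
    by_contra hne
    obtain ⟨b, hb⟩ := hcon (x none) hne
    exact hb _ (hZ x hx b)
  refine Set.Finite.of_injOn (f := F)
    (t := Set.pi Set.univ fun b => {z | z ∈ ((f b).map (Polynomial.evalRingHom 0)).roots})
    ?_ ?_ ?_
  · intro x hx b _
    have h2 := hZ x hx b
    rw [hZ0 x hx, map_zero] at h2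
    show F x b ∈ ((f b).map (Polynomial.evalRingHom 0)).roots
    rw [Polynomial.mem_roots']
    refine ⟨?_, h2⟩
    intro h3
    apply h₁ b
    rw [h3]
    simp
  · intro x hx x' hx' hxx
    funext o
    cases o with
    | none => rw [hZ0 x hx, hZ0 x' hx']
    | some j =>
      obtain ⟨b, l⟩ := j
      have h2 : ∑ l, x (some (b, l)) • e l = ∑ l, x' (some (b, l)) • e l :=
        add_left_cancel (congrFun hxx b)
      have h3 := congrArg e.repr h2
      have h4 := congrArg (fun g => g l) h3
      simpa [Finsupp.single_apply] using h4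
  · refine Set.Finite.pi fun b => ?_
    exact Multiset.finite_toSet _

end Pool.Agent.Helper37.OC
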