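import Mathlib
import Pool.Agent.Helper37.OC.Ample
import Pool.Agent.Helper19.BS.Defs

set_option autoImplicit false

open Filter Topology Cardinal

namespace Pool.Agent.Helper37.OC

/-- The value of a polynomial in several variables is strictly differentiable. -/
theorem strict_mv {K σ : Type} [NontriviallyNormedField K] [Fintype σ] [DecidableEq σ]
    (x₀ : σ → K) (p : MvPolynomial σ K) :
    ∃ D : (σ → K) →L[K] K, HasStrictFDerivAt (fun x : σ → K => MvPolynomial.eval x p) D x₀ ∧
      ∀ j, D (Pi.single j 1) = MvPolynomial.eval x₀ (MvPolynomial.pderiv j p) := by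
  induction p using MvPolynomial.induction_on with
  | C a =>
    refine ⟨0, ?_, fun j => by simp⟩
    have h := hasStrictFDerivAt_const (𝕜 := K) (x := x₀) a
    refine h.congr_of_eventuallyEq (Filter.Eventually.of_forall fun z => ?_)
    simp
  | add p q hp hq =>
    obtain ⟨D₁, h₁, e₁⟩ := hp
    obtain ⟨D₂, h₂, e₂⟩ := hq
    refine ⟨D₁ + D₂, ?_, fun j => ?_⟩
    · refine (h₁.add h₂).congr_of_eventuallyEq (Filter.Eventually.of_forall fun z => ?_)
      simp
    · rw [add_apply, e₁, e₂]
      simp
  | mul_X p n hp =>
    obtain ⟨D₁, h₁, e₁⟩ := hp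
    have h₂ : HasStrictFDerivAt (fun x : σ → K => x n)
        (ContinuousLinearMap.proj (R := K) (φ := fun _ : σ => K) n) x₀ :=
      (ContinuousLinearMap.proj (R := K) (φ := fun _ : σ => K) n).hasStrictFDerivAt
    refine ⟨_, (h₁.mul h₂).congr_of_eventuallyEq (Filter.Eventually.of_forall fun z => ?_),
      fun j => ?_⟩
    · simp
    · simp only [add_apply, smul_apply, smul_eq_mul,
        ContinuousLinearMap.proj_apply, e₁]
      by_cases h : j = n
      · subst h
        simp [Derivation.leibniz]
      · simp [Derivation.leibniz, MvPolynomial.pderiv_X, Ne.symm h]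

/-- Complete nontrivially normed fields are ample. -/
theorem ample_of_complete (K : Type) [NontriviallyNormedField K] [CompleteSpace K] : Ample K := by
  intro J _ _ P hP hdet
  choose D hD hDj using fun i => strict_mv (0 : Option J → K) (P i)
  let Φ : (Option J → K) → (Option J → K) := fun x o =>
    o.elim (x none) (fun i => MvPolynomial.eval x (P i))
  let D' : (Option J → K) →L[K] (Option J → K) := ContinuousLinearMap.pi fun o : Option J =>
    o.elim (ContinuousLinearMap.proj (R := K) (φ := fun _ : Option J => K) none) D
  have hΦ : HasStrictFDerivAt Φ D' 0 := by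
    rw [hasStrictFDerivAt_pi']
    intro o
    cases o with
    | none =>
      exact (ContinuousLinearMap.proj (R := K) (φ := fun _ : Option J => K)
        none).hasStrictFDerivAt
    | some i => exact hD i
  have hsurj : LinearMap.range (D' : (Option J → K) →ₗ[K] (Option J → K)) = ⊤ := by
    rw [LinearMap.range_eq_top, ← LinearMap.injective_iff_surjective]
    rw [← LinearMap.ker_eq_bot, LinearMap.ker_eq_bot']
    intro v hv
    have h0 : v none = 0 := congrFun hv none
    have h1 : ∀ i, D i v = 0 := fun i => congrFun hv (some i)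
    have h2 : (Matrix.of fun i j => MvPolynomial.eval 0
        (MvPolynomial.pderiv (some j) (P i))).mulVec (fun j => v (some j)) = 0 := by
      funext i
      have h3 : v = ∑ o, v o • (Pi.single o (1 : K) : Option J → K) := by
        funext o
        simp [Finset.sum_apply, Pi.single_apply]
      have h4 : D i (∑ o, v o • (Pi.single o (1 : K) : Option J → K)) = 0 := by
        rw [← h3]
        exact h1 i
      rw [map_sum, Fintype.sum_option] at h4
      simp only [map_smul, hDj, h0, zero_smul, map_zero, zero_add, smul_eq_mul] at h4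
      simp only [Matrix.mulVec, dotProduct, Matrix.of_apply, Pi.zero_apply]
      rw [← h4]
      exact Finset.sum_congr rfl fun j _ => mul_comm _ (v (some j))
    have h5 := Matrix.eq_zero_of_mulVec_eq_zero hdet h2
    funext o
    cases o with
    | none => exact h0
    | some j => exact congrFun h5 j
  have hmap := hΦ.map_nhds_eq_of_surj hsurj
  have hΦ0 : Φ 0 = 0 := by
    funext o
    cases o with
    | none => rfl
    | some i => exact hP i
  rw [hΦ0] at hmap
  have h5 : ∀ᶠ w in 𝓝 (0 : Option J → K), ∃ z, Φ z = w := by
    rw [← hmap, Filter.eventually_map]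
    exact Filter.Eventually.of_forall fun z => ⟨z, rfl⟩
  have h6 : Tendsto (fun e : K => (fun o : Option J => o.elim e (fun _ => 0) : Option J → K))
      (𝓝 0) (𝓝 0) := by
    rw [tendsto_pi_nhds]
    intro o
    cases o with
    | none => exact tendsto_id
    | some i => exact tendsto_const_nhds
  have h7 := h6.eventually h5
  intro hfin
  have h8 : (fun x : Option J → K => x none) '' {x | ∀ i, MvPolynomial.eval x (P i) = 0} ∈
      𝓝 (0 : K) := by
    filter_upwards [h7] with e he
    obtain ⟨z, hz⟩ := he
    refine ⟨z, fun i => congrFun hz (some i), congrFun hz none⟩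
  exact infinite_of_mem_nhds (0 : K) h8 (hfin.image _)

/-- Complete nontrivially normed fields of characteristic zero have infinite transcendence
degree. -/
theorem large_of_complete (K : Type) [NontriviallyNormedField K] [CompleteSpace K] [CharZero K] :
    Pool.Agent.Helper19.BS.Large K := by
  unfold Pool.Agent.Helper19.BS.Large
  by_contra hcon
  obtain ⟨s, hs⟩ := exists_isTranscendenceBasis ℚ K
  have h1 : #s < ℵ₀ := by
    rw [hs.cardinalMk_eq_trdeg]
    exact not_le.1 hcon
  have h2 := hs.isAlgebraic
  have h3 : #K ≤ max #(Algebra.adjoin ℚ (Set.range ((↑) : s → K))) ℵ₀ :=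
    Algebra.IsAlgebraic.cardinalMk_le_max _ _
  have h4 : #(Algebra.adjoin ℚ (Set.range ((↑) : s → K))) ≤ ℵ₀ := by
    rw [← Cardinal.mk_congr hs.1.aevalEquiv.toEquiv]
    refine (MvPolynomial.cardinalMk_le_max).trans ?_
    simp [h1.le]
  have h5 : 𝔠 ≤ #K := continuum_le_cardinal_of_nontriviallyNormedField K
  exact absurd (h5.trans (h3.trans (max_le h4 le_rfl))) (not_le.2 aleph0_lt_continuum)

end Pool.Agent.Helper37.OC
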