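import Mathlib

set_option autoImplicit false

open MvPolynomial Cardinal

namespace Pool.Agent.Helper37.OC

/-- Substituting algebraically independent elements in polynomials `y` for which the variables
can be recovered gives algebraically independent elements. -/
theorem indep_of_leftInverse {k Ω I I' : Type} [Field k] [Field Ω] [Algebra k Ω] (s : I → Ω)
    (hs : AlgebraicIndependent k s) (y : I' → MvPolynomial I k) (y' : I → MvPolynomial I' k)
    (h : ∀ i, aeval y' (y i) = X i) : AlgebraicIndependent k (fun i => aeval s (y i)) := by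
  rw [algebraicIndependent_iff_injective_aeval]
  have h1 : (aeval fun i => aeval s (y i) : MvPolynomial I' k →ₐ[k] Ω) =
      (aeval s).comp (aeval y) := by
    ext i
    simp
  have h2 : ((aeval y').comp (aeval y) : MvPolynomial I' k →ₐ[k] MvPolynomial I' k) =
      AlgHom.id k _ := by
    refine MvPolynomial.algHom_ext fun i => ?_
    rw [AlgHom.comp_apply, aeval_X, h, AlgHom.id_apply]
  have h3 : Function.Injective (aeval y : MvPolynomial I' k →ₐ[k] MvPolynomial I k) := by
    intro a b hab
    have := congrArg (aeval y') hab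
    rw [← AlgHom.comp_apply, ← AlgHom.comp_apply, h2] at this
    exact this
  rw [h1]
  exact (algebraicIndependent_iff_injective_aeval.1 hs).comp h3

/-- An invertible linear change of coordinates preserves algebraic independence. -/
theorem indep_linear {k Ω I D : Type} [Field k] [Field Ω] [Algebra k Ω] [Fintype D]
    [DecidableEq D] (M : Matrix D D k) (hM : M.det ≠ 0) (s : I × D → Ω)
    (hs : AlgebraicIndependent k s) :
    AlgebraicIndependent k (fun x : I × D => ∑ l, algebraMap k Ω (M x.2 l) * s (x.1, l)) := by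
  have hu : IsUnit M.det := isUnit_iff_ne_zero.2 hM
  have h := indep_of_leftInverse s hs
    (fun x : I × D => ∑ l, C (M x.2 l) * X (x.1, l))
    (fun x : I × D => ∑ l, C (M⁻¹ x.2 l) * X (x.1, l)) (by
      rintro ⟨i, d⟩
      simp only [map_sum, map_mul, aeval_X, algHom_C, algebraMap_eq]
      have h1 : M * M⁻¹ = 1 := Matrix.mul_nonsing_inv M hu
      calc ∑ l, C (M d l) * ∑ m, C (M⁻¹ l m) * X (i, m)
          = ∑ m, C ((M * M⁻¹) d m) * (X (i, m) : MvPolynomial (I × D) k) := by
            simp only [Finset.mul_sum, Matrix.mul_apply, map_sum, Finset.sum_mul]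
            rw [Finset.sum_comm]
            refine Finset.sum_congr rfl fun m _ => Finset.sum_congr rfl fun l _ => ?_
            rw [map_mul, mul_assoc]
        _ = X (i, d) := by
            rw [h1, Finset.sum_eq_single d]
            · simp
            · intro m _ hm
              rw [Matrix.one_apply_ne (Ne.symm hm)]
              simp
            · intro hd
              exact absurd (Finset.mem_univ d) hd)
  simpa only [map_sum, map_mul, aeval_X, algHom_C] using h

/-- Affine changes of the coordinates preserve algebraic independence. -/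
theorem indep_affine {k Ω I : Type} [Field k] [Field Ω] [Algebra k Ω] (a c : I → k)
    (ha : ∀ i, a i ≠ 0) (s : I → Ω) (hs : AlgebraicIndependent k s) :
    AlgebraicIndependent k (fun i => algebraMap k Ω (c i) + algebraMap k Ω (a i) * s i) := by
  have h := indep_of_leftInverse s hs
    (fun i => C (c i) + C (a i) * X i) (fun i => C (a i)⁻¹ * (X i - C (c i))) (by
      intro i
      simp only [map_add, map_mul, aeval_X, algHom_C, algebraMap_eq]
      rw [← mul_assoc, ← C_mul, mul_inv_cancel₀ (ha i)]
      simp)
  simpa only [map_add, map_mul, aeval_X, algHom_C] using h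

/-- There are many algebraically independent elements in an uncountable field `K`. -/
theorem exists_indep_in {K Ω : Type} [Field K] [Field Ω] [IsAlgClosed Ω] [Algebra K Ω]
    [Algebra.IsAlgebraic K Ω] (F₁ : Type) [Field F₁] [Algebra F₁ Ω] (hF : #F₁ ≤ ℵ₀)
    (hK : ℵ₀ < #K) (J : Type) (hJ : #J ≤ #K) :
    ∃ s : J → K, AlgebraicIndependent F₁ (fun j => algebraMap K Ω (s j)) := by
  have halg : Algebra.IsAlgebraic (Algebra.adjoin F₁ (Set.range (algebraMap K Ω))) Ω := by
    let f : K →+* Algebra.adjoin F₁ (Set.range (algebraMap K Ω)) :=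
      { toFun := fun x => ⟨algebraMap K Ω x, Algebra.subset_adjoin ⟨x, rfl⟩⟩
        map_one' := Subtype.ext (map_one _)
        map_mul' := fun x y => Subtype.ext (map_mul _ _ _)
        map_zero' := Subtype.ext (map_zero _)
        map_add' := fun x y => Subtype.ext (map_add _ _ _) }
    constructor
    intro z
    obtain ⟨p, hp0, hp⟩ := Algebra.IsAlgebraic.isAlgebraic (R := K) z
    refine ⟨p.map f, (Polynomial.map_ne_zero_iff f.injective).2 hp0, ?_⟩
    rw [Polynomial.aeval_def, Polynomial.eval₂_map]
    exact hp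
  obtain ⟨t, ht, hB⟩ := exists_isTranscendenceBasis_subset (R := F₁)
    (Set.range (algebraMap K Ω))
  have h1 : #Ω ≤ max (max #F₁ #t) ℵ₀ := IsAlgClosed.cardinal_le_max_transcendence_basis' _ hB
  have h2 : #K ≤ #Ω := Cardinal.mk_le_of_injective (algebraMap K Ω).injective
  have h3 : #J ≤ #t := by
    by_contra hcon
    have h4 : #t < #K := lt_of_lt_of_le (not_le.1 hcon) hJ
    have h5 : max (max #F₁ #t) ℵ₀ < #K :=
      max_lt (max_lt (lt_of_le_of_lt hF hK) h4) hK
    exact absurd (h2.trans h1) (not_le.2 h5)
  obtain ⟨e⟩ := h3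
  have h6 : ∀ j, ∃ x : K, algebraMap K Ω x = (e j : Ω) := fun j => ht (e j).2
  choose s hs using h6
  refine ⟨s, ?_⟩
  have h7 := hB.1.comp e e.injective
  have h8 : (fun j => algebraMap K Ω (s j)) = (fun x : t => (x : Ω)) ∘ e := funext hs
  rw [h8]
  exact h7

/-- The matrix of conjugates of a basis of a Galois extension is invertible. -/
theorem exists_conj_matrix (K E Ω : Type) [Field K] [Field E] [Field Ω] [Algebra K E]
    [Algebra K Ω] [Algebra E Ω] [IsScalarTower K E Ω] [IsAlgClosed Ω]
    [FiniteDimensional K E] [IsGalois K E] [DecidableEq (E ≃ₐ[K] E)] :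
    ∃ e : (E ≃ₐ[K] E) → E,
      (Matrix.of fun (δ l : E ≃ₐ[K] E) => algebraMap E Ω (δ (e l))).det ≠ 0 := by
  let b := IsGalois.normalBasis K E
  refine ⟨b, ?_⟩
  intro hdet
  obtain ⟨v, hv0, hv⟩ := Matrix.exists_vecMul_eq_zero_iff.2 hdet
  have hli := linearIndependent_monoidHom E Ω
  let g : (E ≃ₐ[K] E) → (E →* Ω) := fun δ =>
    ((algebraMap E Ω).comp ((δ : E ≃ₐ[K] E) : E →+* E) : E →+* Ω)
  have hg : Function.Injective g := by
    intro δ δ' h
    ext x
    apply (algebraMap E Ω).injective
    exact DFunLike.congr_fun h x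
  have h2 := hli.comp g hg
  rw [Fintype.linearIndependent_iff] at h2
  apply hv0
  funext δ
  refine h2 v ?_ δ
  funext x
  rw [← b.sum_repr x]
  have h3 : ∀ l, ∑ δ, v δ * algebraMap E Ω (δ (b l)) = 0 := by
    intro l
    have := congrFun hv l
    simpa [Matrix.vecMul, dotProduct] using this
  simp only [Finset.sum_apply, Pi.smul_apply, smul_eq_mul, Function.comp_apply, Pi.zero_apply]
  have h4 : ∀ δ : E ≃ₐ[K] E, g δ (∑ i, (b.repr x) i • b i) =
      ∑ i, algebraMap K Ω (b.repr x i) * algebraMap E Ω (δ (b i)) := by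
    intro δ
    show algebraMap E Ω (δ (∑ i, (b.repr x) i • b i)) = _
    rw [map_sum, map_sum]
    refine Finset.sum_congr rfl fun i _ => ?_
    rw [map_smul, Algebra.smul_def, map_mul, ← IsScalarTower.algebraMap_apply]
  simp only [h4, Finset.mul_sum]
  rw [Finset.sum_comm]
  refine Finset.sum_eq_zero fun i _ => ?_
  have h5 := h3 i
  calc ∑ δ, v δ * (algebraMap K Ω (b.repr x i) * algebraMap E Ω (δ (b i)))
      = algebraMap K Ω (b.repr x i) * ∑ δ, v δ * algebraMap E Ω (δ (b i)) := by
        rw [Finset.mul_sum]
        refine Finset.sum_congr rfl fun δ _ => ?_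
        ring
    _ = 0 := by rw [h5, mul_zero]

end Pool.Agent.Helper37.OC
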