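import Mathlib
import Pool.Agent.Helper19.BS.Rigid

set_option autoImplicit false

open Polynomial Pool.Agent.Helper19.BS

namespace Pool.Agent.Helper37.OC

/-- The homomorphism `k(t) → L` with `t_i ↦ y_i`. -/
theorem exists_rho {k F L : Type} [Field k] [Field F] [Algebra k F] [Field L] [Algebra k L]
    {r : ℕ} (t : Fin r → F) (ht : AlgebraicIndependent k t) (y : Fin r → L)
    (hy : AlgebraicIndependent k y) :
    ∃ ρ : IntermediateField.adjoin k (Set.range t) →ₐ[k] L,
      (∀ p : MvPolynomial (Fin r) k, ρ (ht.aevalEquivField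
        (algebraMap (MvPolynomial (Fin r) k) (FractionRing (MvPolynomial (Fin r) k)) p)) =
        MvPolynomial.aeval y p) ∧
      ∀ i, ρ ⟨t i, IntermediateField.subset_adjoin k _ ⟨i, rfl⟩⟩ = y i := by
  let K₁ := IntermediateField.adjoin k (Set.range t)
  let e : K₁ ≃ₐ[k] IntermediateField.adjoin k (Set.range y) :=
    ht.aevalEquivField.symm.trans hy.aevalEquivField
  let ρ : K₁ →ₐ[k] L := (IntermediateField.adjoin k (Set.range y)).val.comp
    (e : K₁ →ₐ[k] IntermediateField.adjoin k (Set.range y))
  have h0 : ∀ p : MvPolynomial (Fin r) k, ρ (ht.aevalEquivField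
        (algebraMap (MvPolynomial (Fin r) k) (FractionRing (MvPolynomial (Fin r) k)) p)) =
        MvPolynomial.aeval y p := by
    intro p
    show ((hy.aevalEquivField (ht.aevalEquivField.symm (ht.aevalEquivField _)) :
      IntermediateField.adjoin k (Set.range y)) : L) = _
    rw [AlgEquiv.symm_apply_apply, AlgebraicIndependent.aevalEquivField_algebraMap_apply_coe]
  refine ⟨ρ, h0, fun i => ?_⟩
  have h1 : ht.aevalEquivField (algebraMap (MvPolynomial (Fin r) k)
      (FractionRing (MvPolynomial (Fin r) k)) (MvPolynomial.X i)) =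
      (⟨t i, IntermediateField.subset_adjoin k _ ⟨i, rfl⟩⟩ : K₁) := by
    apply Subtype.ext
    rw [AlgebraicIndependent.aevalEquivField_algebraMap_apply_coe]
    simp
  rw [← h1, h0, MvPolynomial.aeval_X]

/-- A finitely generated field of characteristic zero as the function field of a hypersurface. -/
theorem exists_poly (k F : Type) [Field k] [CharZero k] [Field F] [Algebra k F] (G : Finset F)
    (hG : IntermediateField.adjoin k (G : Set F) = ⊤) :
    ∃ (r : ℕ) (t : Fin r → F) (f : (MvPolynomial (Fin r) k)[X]), (∀ i, t i ∈ G) ∧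
      AlgebraicIndependent k t ∧ (∀ z : F, z ∈ clos k (Set.range t)) ∧
      ∀ (L : Type) [Field L] [Algebra k L] (y : Fin r → L), AlgebraicIndependent k y →
        (f.map (MvPolynomial.aeval y : MvPolynomial (Fin r) k →ₐ[k] L).toRingHom).Separable ∧
        (f.map (MvPolynomial.aeval y : MvPolynomial (Fin r) k →ₐ[k] L).toRingHom).degree ≠ 0 ∧
        ∀ x : L, (f.map (MvPolynomial.aeval y : MvPolynomial (Fin r) k →ₐ[k] L).toRingHom).eval x
          = 0 → ∃ ψ : F →+* L, ∀ i, ψ (t i) = y i := by
  classical
  obtain ⟨B, r, β₀, hB, hβ₀, hβG, hGc⟩ := exists_basis (k := k) G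
  let t : Fin r → F := fun i => (β₀ i : F)
  have ht : AlgebraicIndependent k t := hB.1.comp β₀ hβ₀
  have hFc : ∀ z : F, z ∈ clos k (Set.range t) := by
    intro z
    have h1 : IntermediateField.adjoin k (G : Set F) ≤ clos k (Set.range t) := by
      rw [IntermediateField.adjoin_le_iff]
      intro g hg
      exact hGc g hg
    rw [hG] at h1
    exact h1 IntermediateField.mem_top
  let F₀ := IntermediateField.adjoin k (Set.range t)
  have hfin : FiniteDimensional F₀ F := by
    have h2 : FiniteDimensional F₀ (IntermediateField.adjoin F₀ (G : Set F)) := by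
      apply IntermediateField.finiteDimensional_adjoin
      intro g hg
      have h3 := hGc g hg
      rw [mem_clos] at h3
      exact h3.isIntegral
    have h4 : IntermediateField.adjoin F₀ (G : Set F) = ⊤ := by
      have h5 : IntermediateField.adjoin k (G : Set F) ≤
          (IntermediateField.adjoin F₀ (G : Set F)).restrictScalars k := by
        rw [IntermediateField.adjoin_le_iff]
        exact IntermediateField.subset_adjoin F₀ (G : Set F)
      rw [hG] at h5
      rw [eq_top_iff]
      intro z _
      exact h5 IntermediateField.mem_top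
    rw [h4] at h2
    exact Module.Finite.equiv (IntermediateField.topEquiv (F := F₀) (E := F)).toLinearEquiv
  have hcF₀ : CharZero F₀ := charZero_of_injective_algebraMap (algebraMap k F₀).injective
  let pb := Field.powerBasisOfFiniteOfSeparable F₀ F
  let p := minpoly F₀ pb.gen
  have hint : IsIntegral F₀ pb.gen := Algebra.IsIntegral.isIntegral _
  have hirr : Irreducible p := minpoly.irreducible hint
  let E₀ := FractionRing (MvPolynomial (Fin r) k)
  let p' : E₀[X] := p.map (ht.aevalEquivField.symm : F₀ ≃ₐ[k] E₀).toAlgHom.toRingHom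
  obtain ⟨b, hb, hbp⟩ := IsLocalization.integerNormalization_spec
    (nonZeroDivisors (MvPolynomial (Fin r) k)) p'
  let f := IsLocalization.integerNormalization (nonZeroDivisors (MvPolynomial (Fin r) k)) p'
  refine ⟨r, t, f, hβG, ht, hFc, ?_⟩
  intro L _ _ y hy
  obtain ⟨ρ, hρ, hρt⟩ := exists_rho t ht y hy
  have hb0 : MvPolynomial.aeval y b ≠ 0 := by
    intro h0
    exact nonZeroDivisors.ne_zero hb
      (hy (by rw [h0, map_zero] : MvPolynomial.aeval y b = MvPolynomial.aeval y 0))
  have hcomp : (ρ.toRingHom.comp (ht.aevalEquivField : E₀ ≃ₐ[k] F₀).toAlgHom.toRingHom).comp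
      (algebraMap (MvPolynomial (Fin r) k) E₀) =
      (MvPolynomial.aeval y : MvPolynomial (Fin r) k →ₐ[k] L).toRingHom := by
    refine RingHom.ext fun q => ?_
    exact hρ q
  have hf : f.map (MvPolynomial.aeval y : MvPolynomial (Fin r) k →ₐ[k] L).toRingHom =
      C (MvPolynomial.aeval y b) * p.map ρ.toRingHom := by
    rw [← hcomp, ← Polynomial.map_map, hbp]
    rw [← algebraMap_smul E₀ b p', Polynomial.smul_eq_C_mul, Polynomial.map_mul,
      Polynomial.map_C]
    congr 1
    · congr 1
      exact hρ b
    · rw [Polynomial.map_map]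
      congr 1
      refine RingHom.ext fun z => ?_
      show ρ (ht.aevalEquivField (ht.aevalEquivField.symm z)) = ρ z
      rw [AlgEquiv.apply_symm_apply]
  have hsep : (p.map ρ.toRingHom).Separable := (hirr.separable).map
  refine ⟨?_, ?_, ?_⟩
  · rw [hf]
    exact Polynomial.Separable.unit_mul (Polynomial.isUnit_C.2 (isUnit_iff_ne_zero.2 hb0)) hsep
  · rw [hf, Polynomial.degree_C_mul hb0, Polynomial.degree_map]
    exact hirr.degree_pos.ne'
  · intro x hx
    rw [hf, Polynomial.eval_mul, Polynomial.eval_C] at hx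
    have hx1 := (mul_eq_zero.1 hx).resolve_left hb0
    let _ : Algebra F₀ L := ρ.toRingHom.toAlgebra
    have hx2 : aeval x (minpoly F₀ pb.gen) = 0 := by
      rw [Polynomial.aeval_def, ← Polynomial.eval_map]
      exact hx1
    let ψ : F →ₐ[F₀] L := pb.lift x hx2
    refine ⟨ψ.toRingHom, fun i => ?_⟩
    have h6 := ψ.commutes ⟨t i, IntermediateField.subset_adjoin k _ ⟨i, rfl⟩⟩
    exact h6.trans (hρt i)

end Pool.Agent.Helper37.OC
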