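import Mathlib
import Pool.Agent.Helper37.OC.Ample
import Pool.Agent.Helper37.OC.Indep
import Pool.Agent.Helper37.OC.Poly

set_option autoImplicit false

open Polynomial Cardinal Pool.Agent.Helper19.BS

namespace Pool.Agent.Helper37.OC

/-- Infinite transcendence degree is preserved by enlarging the ground field by a finite set. -/
theorem large_adjoin {k Ω : Type} [Field k] [Field Ω] [Algebra k Ω] (C : Set Ω) (hC : C.Finite)
    (h : ℵ₀ ≤ Algebra.trdeg k Ω) :
    ℵ₀ ≤ Algebra.trdeg (IntermediateField.adjoin k C) Ω := by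
  by_contra hcon
  have h1 : FinTrdeg (IntermediateField.adjoin k C) Ω := finTrdeg_iff_trdeg.2 (not_le.1 hcon)
  have h2 : Algebra.EssFiniteType k (IntermediateField.adjoin k C) :=
    IntermediateField.essFiniteType_iff.2 (IntermediateField.fg_adjoin_of_finite hC)
  have h3 : FinTrdeg k Ω := FinTrdeg.trans k (IntermediateField.adjoin k C) Ω
  exact absurd (finTrdeg_iff_trdeg.1 h3) (not_lt.2 h)

/-- Independent elements in a subfield over which `Ω` is algebraic. -/
theorem exists_indep_fin {k K Ω : Type} [Field k] [Field K] [Field Ω] [Algebra k Ω]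
    [Algebra K Ω] [Algebra.IsAlgebraic K Ω] (h : ℵ₀ ≤ Algebra.trdeg k Ω) (J : Type) [Finite J] :
    ∃ s : J → K, AlgebraicIndependent k (fun j => algebraMap K Ω (s j)) := by
  have halg : Algebra.IsAlgebraic (Algebra.adjoin k (Set.range (algebraMap K Ω))) Ω := by
    let f : K →+* Algebra.adjoin k (Set.range (algebraMap K Ω)) :=
      { toFun := fun x => ⟨algebraMap K Ω x, Algebra.subset_adjoin ⟨x, rfl⟩⟩
        map_one' := Subtype.ext (map_one _)
        map_mul' := fun x y => Subtype.ext (map_mul _ _ _)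
        map_zero' := Subtype.ext (map_zero _)
        map_add' := fun x y => Subtype.ext (map_add _ _ _) }
    constructor
    intro z
    obtain ⟨p, hp0, hp⟩ := Algebra.IsAlgebraic.isAlgebraic (R := K) z
    refine ⟨p.map f, (Polynomial.map_ne_zero_iff f.injective).2 hp0, ?_⟩
    rw [Polynomial.aeval_def, Polynomial.eval₂_map]
    exact hp
  obtain ⟨t, ht, hB⟩ := exists_isTranscendenceBasis_subset (R := k)
    (Set.range (algebraMap K Ω))
  have h3 : #J ≤ #t := by
    rw [hB.cardinalMk_eq_trdeg]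
    exact le_trans (Cardinal.mk_lt_aleph0).le h
  obtain ⟨e⟩ := h3
  have h6 : ∀ j, ∃ x : K, algebraMap K Ω x = (e j : Ω) := fun j => ht (e j).2
  choose s hs using h6
  refine ⟨s, ?_⟩
  have h7 := hB.1.comp e e.injective
  have h8 : (fun j => algebraMap K Ω (s j)) = (fun x : t => (x : Ω)) ∘ e := funext hs
  rw [h8]
  exact h7

/-- Multiplying independent elements by an element which is transcendental over them. -/
theorem indep_scale {k Ω J : Type} [Field k] [Field Ω] [Algebra k Ω] (a : J → Ω)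
    (ha : AlgebraicIndependent k a) (s : Ω)
    (hs : Transcendental (Algebra.adjoin k (Set.range a)) s) :
    AlgebraicIndependent k (fun j => s * a j) := by
  have h0 := (ha.option_iff_transcendental s).2 hs
  have h := indep_of_leftInverse (fun o : Option J => o.elim s a) h0
    (fun j : J => MvPolynomial.X none * MvPolynomial.X (some j))
    (fun o : Option J => o.elim 1 (fun j => MvPolynomial.X j)) (by
      intro j
      rw [map_mul, MvPolynomial.aeval_X, MvPolynomial.aeval_X]
      simp)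
  simpa only [map_mul, MvPolynomial.aeval_X, Option.elim] using h

/-- One of `s` and `s * c` is transcendental. -/
theorem transc_or {k Ω J : Type} [Field k] [Field Ω] [Algebra k Ω] (a : J → Ω) (c : Ω)
    (hac : AlgebraicIndependent k (fun o : Option J => o.elim c a)) (s : Ω) (hs : s ≠ 0) :
    Transcendental (Algebra.adjoin k (Set.range a)) s ∨
      Transcendental (Algebra.adjoin k (Set.range a)) (s * c) := by
  by_contra hcon
  push Not at hcon
  obtain ⟨h1, h2⟩ := hcon
  have hc := (AlgebraicIndependent.option_iff.1 hac).2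
  apply hc
  unfold Transcendental at h1 h2
  rw [not_not] at h1 h2
  have h3 : IsAlgebraic (Algebra.adjoin k (Set.range a)) (s⁻¹ * (s * c)) := h1.inv.mul h2
  rwa [← mul_assoc, inv_mul_cancel₀ hs, one_mul] at h3

/-- The family of curves used for the embeddings. -/
noncomputable def fam {k E : Type} [Field k] [Field E] [Algebra k E] {r : ℕ}
    (f : (MvPolynomial (Fin r) k)[X]) (y₀ z : Fin r → E) : E[X][X] :=
  f.map (MvPolynomial.aeval (fun i => C (y₀ i) + X * C (z i)) :
    MvPolynomial (Fin r) k →ₐ[k] E[X]).toRingHom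

theorem fam_map {k E : Type} [Field k] [Field E] [Algebra k E] {r : ℕ}
    (f : (MvPolynomial (Fin r) k)[X]) (y₀ z : Fin r → E) (s : E) :
    (fam f y₀ z).map (evalRingHom s) =
      f.map (MvPolynomial.aeval (fun i => y₀ i + s * z i) :
        MvPolynomial (Fin r) k →ₐ[k] E).toRingHom := by
  unfold fam
  rw [Polynomial.map_map]
  congr 1
  refine MvPolynomial.ringHom_ext (fun c => ?_) (fun i => ?_)
  · show Polynomial.eval s (MvPolynomial.aeval _ (MvPolynomial.C c)) =
      MvPolynomial.aeval _ (MvPolynomial.C c)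
    rw [MvPolynomial.algHom_C, MvPolynomial.algHom_C]
    show Polynomial.eval s (C (algebraMap k E c)) = _
    rw [Polynomial.eval_C]
  · show Polynomial.eval s (MvPolynomial.aeval _ (MvPolynomial.X i)) =
      MvPolynomial.aeval _ (MvPolynomial.X i)
    rw [MvPolynomial.aeval_X, MvPolynomial.aeval_X]
    simp only [eval_add, eval_C, eval_mul, eval_X]

open scoped Classical in
/-- One step: a point of the hypersurface `f(y, x) = 0` over the finite Galois extension `E` of
`K` all of whose conjugates are independent over `Q₁`. -/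
theorem exists_step {k K E Ω Q₁ : Type} [Field k] [Field K] [Field E] [Field Ω] [Field Q₁]
    [Algebra K Ω] [Algebra K E] [Algebra E Ω] [IsScalarTower K E Ω] [Algebra k E]
    [Algebra Q₁ Ω] [FiniteDimensional K E] (hK : Ample K)
    (e : (E ≃ₐ[K] E) → E) (M : Matrix (E ≃ₐ[K] E) (E ≃ₐ[K] E) Q₁)
    (hM : ∀ δ l, algebraMap Q₁ Ω (M δ l) = algebraMap E Ω (δ (e l))) (hdet : M.det ≠ 0) {r : ℕ}
    (f : (MvPolynomial (Fin r) k)[X]) (y₀ : Fin r → K) (w₀ : Fin r → Q₁)
    (hw : ∀ i, algebraMap Q₁ Ω (w₀ i) = algebraMap K Ω (y₀ i)) (x₀ : E)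
    (h₀ : (f.map (MvPolynomial.aeval (fun i => algebraMap K E (y₀ i)) :
      MvPolynomial (Fin r) k →ₐ[k] E).toRingHom).eval x₀ = 0)
    (h₁ : (derivative (f.map (MvPolynomial.aeval (fun i => algebraMap K E (y₀ i)) :
      MvPolynomial (Fin r) k →ₐ[k] E).toRingHom)).eval x₀ ≠ 0)
    (s : Option (Fin r × (E ≃ₐ[K] E)) → K)
    (hs : AlgebraicIndependent Q₁ (fun o => algebraMap K Ω (s o))) :
    ∃ (y : Fin r → E) (x : E), (f.map (MvPolynomial.aeval y :
      MvPolynomial (Fin r) k →ₐ[k] E).toRingHom).eval x = 0 ∧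
      AlgebraicIndependent Q₁ (fun p : (E ≃ₐ[K] E) × Fin r =>
        algebraMap E Ω (p.1 (y p.2))) := by
  let a : Fin r × (E ≃ₐ[K] E) → K := fun j => s (some j)
  let c : K := s none
  let z : Fin r → E := fun i => ∑ l, algebraMap K E (a (i, l)) * e l
  let cb : Bool → K := fun b => if b then c else 1
  let fb : Bool → E[X][X] := fun b => fam f (fun i => algebraMap K E (y₀ i))
    (fun i => algebraMap K E (cb b) * z i)
  have hfb : ∀ b, (fb b).map (evalRingHom 0) =
      f.map (MvPolynomial.aeval (fun i => algebraMap K E (y₀ i)) :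
        MvPolynomial (Fin r) k →ₐ[k] E).toRingHom := by
    intro b
    rw [fam_map]
    simp only [zero_mul, add_zero]
  obtain ⟨t, ht0, ht⟩ := exists_zero_pair hK fb x₀ (fun b => by rw [hfb]; exact h₀)
    (fun b => by rw [hfb]; exact h₁)
  -- the scaling factor
  have hac : AlgebraicIndependent Q₁ (fun o : Option (Fin r × (E ≃ₐ[K] E)) =>
      o.elim (algebraMap K Ω c) (fun j => algebraMap K Ω (a j))) := by
    have h2 : (fun o : Option (Fin r × (E ≃ₐ[K] E)) =>
      o.elim (algebraMap K Ω c) (fun j => algebraMap K Ω (a j))) =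
      fun o => algebraMap K Ω (s o) := by
      funext o
      cases o <;> rfl
    rw [h2]
    exact hs
  have ha : AlgebraicIndependent Q₁ (fun j => algebraMap K Ω (a j)) :=
    hs.comp some (Option.some_injective _)
  have ht0' : algebraMap K Ω t ≠ 0 := by
    rw [_root_.map_ne_zero]
    exact ht0
  have hσ : ∃ b, Transcendental (Algebra.adjoin Q₁ (Set.range fun j => algebraMap K Ω (a j)))
      (algebraMap K Ω (t * cb b)) := by
    rcases transc_or _ _ hac (algebraMap K Ω t) ht0' with h3 | h3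
    · exact ⟨false, by simpa [cb] using h3⟩
    · exact ⟨true, by simpa [cb] using h3⟩
  obtain ⟨b, hb⟩ := hσ
  let σ : K := t * cb b
  obtain ⟨x, hx⟩ := ht b
  let y : Fin r → E := fun i => algebraMap K E (y₀ i) + algebraMap K E σ * z i
  refine ⟨y, x, ?_, ?_⟩
  · rw [fam_map] at hx
    have h4 : (fun i => algebraMap K E (y₀ i) + algebraMap K E t *
        (algebraMap K E (cb b) * z i)) = y := by
      funext i
      show _ = algebraMap K E (y₀ i) + algebraMap K E (t * cb b) * z i
      rw [map_mul, mul_assoc]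
    rw [h4] at hx
    exact hx
  · have h5 := indep_scale _ ha _ hb
    have h6 := indep_linear M hdet _ h5
    have h7 := indep_affine (fun _ => (1 : Q₁)) (fun p : Fin r × (E ≃ₐ[K] E) => w₀ p.1)
      (fun _ => one_ne_zero) _ h6
    have h8 := h7.comp (Prod.swap : (E ≃ₐ[K] E) × Fin r → Fin r × (E ≃ₐ[K] E))
      Prod.swap_injective
    have h9 : (fun p : (E ≃ₐ[K] E) × Fin r => algebraMap E Ω (p.1 (y p.2))) =
        (fun p : Fin r × (E ≃ₐ[K] E) => algebraMap Q₁ Ω (w₀ p.1) + algebraMap Q₁ Ω 1 *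
          ∑ l, algebraMap Q₁ Ω (M p.2 l) * (algebraMap K Ω σ * algebraMap K Ω (a (p.1, l)))) ∘
        (Prod.swap : (E ≃ₐ[K] E) × Fin r → Fin r × (E ≃ₐ[K] E)) := by
      funext ⟨δ, i⟩
      simp only [Function.comp_apply, Prod.swap_prod_mk, map_one, one_mul, hw, hM]
      show algebraMap E Ω (δ (algebraMap K E (y₀ i) + algebraMap K E σ *
        ∑ l, algebraMap K E (a (i, l)) * e l)) = _
      rw [map_add, map_mul, map_sum, AlgEquiv.commutes, AlgEquiv.commutes, map_add, map_mul,
        map_sum, ← IsScalarTower.algebraMap_apply, ← IsScalarTower.algebraMap_apply,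
        Finset.mul_sum]
      congr 1
      refine Finset.sum_congr rfl fun l _ => ?_
      have h10 : δ (algebraMap K E (a (i, l)) * e l) = algebraMap K E (a (i, l)) * δ (e l) := by
        rw [map_mul δ, AlgEquiv.commutes]
      rw [h10, map_mul (algebraMap E Ω), ← IsScalarTower.algebraMap_apply]
      ring
    rw [h9]
    exact h8

/-- **Embeddings into ample fields.**  Let `K` be ample, `Ω` an algebraic closure of `K` and `Q` a
subfield of `Ω` over which `Ω` has infinite transcendence degree. Every finitely generated field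
`F` embeds into a finite Galois extension `K₁` of `K` such that the conjugates of the images of a
transcendence basis are algebraically independent over `Q`. -/
theorem exists_embedding_gen {k K Ω : Type} [Field k] [CharZero k] [Field K] [Field Ω]
    [Algebra k K] [Algebra k Ω] [Algebra K Ω] [IsScalarTower k K Ω] (hK : Ample K)
    [IsAlgClosed Ω] [Algebra.IsAlgebraic K Ω] (Q : IntermediateField k Ω)
    (hQ : ℵ₀ ≤ Algebra.trdeg Q Ω) (F : Type) [Field F] [Algebra k F] (G : Finset F)
    (hG : IntermediateField.adjoin k (G : Set F) = ⊤) :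
    ∃ (K₁ : IntermediateField K Ω), FiniteDimensional K K₁ ∧ IsGalois K K₁ ∧
      ∃ (r : ℕ) (t : Fin r → F) (ψ : F →+* K₁), (∀ i, t i ∈ G) ∧ AlgebraicIndependent k t ∧
        (∀ z : F, z ∈ clos k (Set.range t)) ∧
        AlgebraicIndependent Q (fun x : (K₁ ≃ₐ[K] K₁) × Fin r =>
          ((x.1 (ψ (t x.2)) : K₁) : Ω)) := by
  classical
  obtain ⟨r, t, f, htG, ht, htc, hf⟩ := exists_poly k F G hG
  have hcK : CharZero K := charZero_of_injective_algebraMap (algebraMap k K).injective
  -- the base point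
  obtain ⟨y₀, hy₀⟩ := exists_indep_fin (k := Q) (K := K) (Ω := Ω) hQ (Fin r)
  have hy₀' : AlgebraicIndependent k (fun i => algebraMap K Ω (y₀ i)) :=
    hy₀.restrictScalars (algebraMap k Q).injective
  obtain ⟨hsepΩ, hdegΩ, -⟩ := hf Ω _ hy₀'
  obtain ⟨x₀, hx₀⟩ := IsAlgClosed.exists_root _ hdegΩ
  have hclo : IsAlgClosure K Ω := ⟨inferInstance, inferInstance⟩
  have hnor : Normal K Ω := IsAlgClosure.normal K Ω
  have hfinx : FiniteDimensional K (IntermediateField.adjoin K {x₀}) :=
    IntermediateField.adjoin.finiteDimensional (Algebra.IsIntegral.isIntegral x₀)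
  let K₁ : IntermediateField K Ω :=
    IntermediateField.normalClosure K (IntermediateField.adjoin K {x₀}) Ω
  have hfin : FiniteDimensional K K₁ := normalClosure.is_finiteDimensional K _ Ω
  have hgal : IsGalois K K₁ := ⟨⟩
  have hx₀K : x₀ ∈ K₁ := (IntermediateField.le_normalClosure (IntermediateField.adjoin K {x₀}))
    (IntermediateField.mem_adjoin_simple_self K x₀)
  refine ⟨K₁, hfin, hgal, r, t, ?_⟩
  obtain ⟨e, he⟩ := exists_conj_matrix K K₁ Ω
  let C : Set Ω := Set.range (fun p : (K₁ ≃ₐ[K] K₁) × (K₁ ≃ₐ[K] K₁) =>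
    ((p.1 (e p.2) : K₁) : Ω)) ∪ Set.range (fun i => algebraMap K Ω (y₀ i))
  have hC : C.Finite := (Set.finite_range _).union (Set.finite_range _)
  let Q₁ : IntermediateField Q Ω := IntermediateField.adjoin Q C
  have hQ₁ : ℵ₀ ≤ Algebra.trdeg Q₁ Ω := large_adjoin C hC hQ
  obtain ⟨s, hs⟩ := exists_indep_fin (k := Q₁) (K := K) (Ω := Ω) hQ₁
    (Option (Fin r × (K₁ ≃ₐ[K] K₁)))
  let M : Matrix (K₁ ≃ₐ[K] K₁) (K₁ ≃ₐ[K] K₁) Q₁ := fun δ l =>
    ⟨((δ (e l) : K₁) : Ω), IntermediateField.subset_adjoin Q C (Or.inl ⟨(δ, l), rfl⟩)⟩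
  have hM : ∀ δ l, algebraMap Q₁ Ω (M δ l) = algebraMap K₁ Ω (δ (e l)) := fun _ _ => rfl
  have hdet : M.det ≠ 0 := by
    intro h0
    apply he
    have h1 := congrArg (algebraMap Q₁ Ω) h0
    rw [RingHom.map_det, map_zero] at h1
    exact h1
  let w₀ : Fin r → Q₁ := fun i =>
    ⟨algebraMap K Ω (y₀ i), IntermediateField.subset_adjoin Q C (Or.inr ⟨i, rfl⟩)⟩
  -- the simple root in `K₁`
  let kv : K₁ →ₐ[k] Ω := K₁.val.restrictScalars k
  have hy₀K : AlgebraicIndependent k (fun i => algebraMap K K₁ (y₀ i)) :=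
    AlgebraicIndependent.of_comp kv hy₀'
  obtain ⟨hsep, -, hψ⟩ := hf K₁ _ hy₀K
  have h₀ : (f.map (MvPolynomial.aeval (fun i => algebraMap K K₁ (y₀ i)) :
      MvPolynomial (Fin r) k →ₐ[k] K₁).toRingHom).eval (⟨x₀, hx₀K⟩ : K₁) = 0 := by
    have h1 : kv.toRingHom.comp (MvPolynomial.aeval (fun i => algebraMap K K₁ (y₀ i)) :
      MvPolynomial (Fin r) k →ₐ[k] K₁).toRingHom =
      (MvPolynomial.aeval (fun i => algebraMap K Ω (y₀ i)) :
        MvPolynomial (Fin r) k →ₐ[k] Ω).toRingHom := by
      refine MvPolynomial.ringHom_ext (fun c => ?_) (fun i => ?_)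
      · show kv (MvPolynomial.aeval _ (MvPolynomial.C c)) =
          MvPolynomial.aeval _ (MvPolynomial.C c)
        rw [MvPolynomial.algHom_C, MvPolynomial.algHom_C, AlgHom.commutes]
      · show kv (MvPolynomial.aeval _ (MvPolynomial.X i)) =
          MvPolynomial.aeval _ (MvPolynomial.X i)
        rw [MvPolynomial.aeval_X, MvPolynomial.aeval_X]
        rfl
    have h2 : Polynomial.eval x₀ (f.map (MvPolynomial.aeval (fun i => algebraMap K Ω (y₀ i)) :
        MvPolynomial (Fin r) k →ₐ[k] Ω).toRingHom) = 0 := hx₀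
    rw [← h1, ← Polynomial.map_map] at h2
    have h3 : kv.toRingHom (Polynomial.eval (⟨x₀, hx₀K⟩ : K₁) (f.map (MvPolynomial.aeval
        (fun i => algebraMap K K₁ (y₀ i)) : MvPolynomial (Fin r) k →ₐ[k] K₁).toRingHom)) = 0 := by
      rw [← Polynomial.eval_map_apply]
      exact h2
    exact kv.toRingHom.injective (h3.trans (map_zero _).symm)
  have h₁ : (derivative (f.map (MvPolynomial.aeval (fun i => algebraMap K K₁ (y₀ i)) :
      MvPolynomial (Fin r) k →ₐ[k] K₁).toRingHom)).eval (⟨x₀, hx₀K⟩ : K₁) ≠ 0 := by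
    have h4 := hsep.aeval_derivative_ne_zero (S := K₁) (x := (⟨x₀, hx₀K⟩ : K₁)) (by
      rw [Polynomial.coe_aeval_eq_eval]
      exact h₀)
    rw [Polynomial.coe_aeval_eq_eval] at h4
    exact h4
  obtain ⟨y, x, hx, hind⟩ := exists_step hK e M hM hdet f y₀ w₀ (fun _ => rfl) _ h₀ h₁ s hs
  have hindk : AlgebraicIndependent k y := by
    have h5 := hind.comp (fun i : Fin r => ((1 : K₁ ≃ₐ[K] K₁), i))
      (fun i j hij => congrArg Prod.snd hij)
    have h6 : AlgebraicIndependent Q (fun i => ((y i : K₁) : Ω)) :=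
      h5.restrictScalars (algebraMap Q Q₁).injective
    have h7 : AlgebraicIndependent k (fun i => ((y i : K₁) : Ω)) :=
      h6.restrictScalars (algebraMap k Q).injective
    exact AlgebraicIndependent.of_comp kv h7
  obtain ⟨-, -, h8⟩ := hf K₁ y hindk
  obtain ⟨ψ, hψ⟩ := h8 x hx
  refine ⟨ψ, htG, ht, htc, ?_⟩
  simp only [hψ]
  exact hind.restrictScalars (algebraMap Q Q₁).injective

/-- The case of the prime field. -/
theorem exists_embedding {K Ω : Type} [Field K] [CharZero K] [Field Ω] [CharZero Ω]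
    [Algebra K Ω] (hK : Ample K) [IsAlgClosed Ω] [Algebra.IsAlgebraic K Ω]
    (Q : IntermediateField ℚ Ω) (hQ : ℵ₀ ≤ Algebra.trdeg Q Ω) (F : Type) [Field F] [CharZero F]
    (G : Finset F) (hG : IntermediateField.adjoin ℚ (G : Set F) = ⊤) :
    ∃ (K₁ : IntermediateField K Ω), FiniteDimensional K K₁ ∧ IsGalois K K₁ ∧
      ∃ (r : ℕ) (t : Fin r → F) (ψ : F →+* K₁), (∀ i, t i ∈ G) ∧ AlgebraicIndependent ℚ t ∧
        (∀ z : F, z ∈ clos ℚ (Set.range t)) ∧
        AlgebraicIndependent Q (fun x : (K₁ ≃ₐ[K] K₁) × Fin r =>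
          ((x.1 (ψ (t x.2)) : K₁) : Ω)) :=
  exists_embedding_gen hK Q hQ F G hG

end Pool.Agent.Helper37.OC
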