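import Mathlib

set_option autoImplicit false

open Polynomial Filter Topology

namespace Pool.Agent.Helper37.OC

/-- The value of a bivariate polynomial is strictly differentiable. -/
theorem strict_eval {F : Type} [NontriviallyNormedField F] (g : F[X][X]) (e₀ x₀ : F) :
    ∃ D : F × F →L[F] F,
      HasStrictFDerivAt (fun z : F × F => (g.map (evalRingHom z.1)).eval z.2) D (e₀, x₀) ∧
      D (0, 1) = (derivative (g.map (evalRingHom e₀))).eval x₀ := by
  induction g using Polynomial.induction_on' with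
  | add p q hp hq =>
    obtain ⟨D₁, h₁, e₁⟩ := hp
    obtain ⟨D₂, h₂, e₂⟩ := hq
    refine ⟨D₁ + D₂, ?_, ?_⟩
    · have h := h₁.add h₂
      refine h.congr_of_eventuallyEq (Filter.Eventually.of_forall fun z => ?_)
      simp
    · rw [add_apply, e₁, e₂]
      simp
  | monomial n c =>
    have h1 : HasStrictFDerivAt (fun z : F × F => c.eval z.1)
        ((c.derivative.eval e₀) • ContinuousLinearMap.fst F F F) (e₀, x₀) := by
      have h := (c.hasStrictDerivAt e₀).hasStrictFDerivAt
      have h2 := h.comp (e₀, x₀) (hasStrictFDerivAt_fst (𝕜 := F) (p := (e₀, x₀)))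
      refine (h2.congr_fderiv ?_)
      ext <;> simp
    have h2 : HasStrictFDerivAt (fun z : F × F => z.2 ^ n)
        ((n * x₀ ^ (n - 1)) • ContinuousLinearMap.snd F F F) (e₀, x₀) := by
      have h := (hasStrictDerivAt_pow n x₀).hasStrictFDerivAt
      have h2 := h.comp (e₀, x₀) (hasStrictFDerivAt_snd (𝕜 := F) (p := (e₀, x₀)))
      refine (h2.congr_fderiv ?_)
      ext <;> simp
    refine ⟨_, (h1.mul h2).congr_of_eventuallyEq (Filter.Eventually.of_forall fun z => ?_), ?_⟩
    · simp
    · simp [Polynomial.derivative_monomial]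
      ring

/-- Implicit function theorem for bivariate polynomials over complete fields. -/
theorem exists_root_near {F : Type} [NontriviallyNormedField F] [CompleteSpace F] (g : F[X][X])
    (x₀ : F) (h₀ : (g.map (evalRingHom 0)).eval x₀ = 0)
    (h₁ : (derivative (g.map (evalRingHom 0))).eval x₀ ≠ 0) :
    ∀ᶠ e in 𝓝 (0 : F), ∃ x, (g.map (evalRingHom e)).eval x = 0 := by
  obtain ⟨D, hD, hD1⟩ := strict_eval g 0 x₀
  let Φ : F × F → F × F := fun z => (z.1, (g.map (evalRingHom z.1)).eval z.2)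
  have hΦ : HasStrictFDerivAt Φ ((ContinuousLinearMap.fst F F F).prod D) (0, x₀) :=
    (hasStrictFDerivAt_fst).prodMk hD
  have hsurj : LinearMap.range (((ContinuousLinearMap.fst F F F).prod D : F × F →L[F] F × F) : F × F →ₗ[F] F × F) = ⊤ := by
    rw [LinearMap.range_eq_top]
    rintro ⟨a, b⟩
    have hb : D (0, 1) ≠ 0 := by rw [hD1]; exact h₁
    refine ⟨(a, (b - D (a, 0)) / D (0, 1)), ?_⟩
    have h3 : D (a, (b - D (a, 0)) / D (0, 1)) = b := by
      have h4 : ((a, (b - D (a, 0)) / D (0, 1)) : F × F) =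
          (a, 0) + ((b - D (a, 0)) / D (0, 1)) • (0, 1) := by ext <;> simp
      rw [h4, map_add, map_smul, smul_eq_mul, div_mul_cancel₀ _ hb]
      ring
    ext
    · simp
    · exact h3
  have hmap := hΦ.map_nhds_eq_of_surj hsurj
  have hΦ0 : Φ (0, x₀) = (0, 0) := Prod.ext rfl h₀
  rw [hΦ0] at hmap
  have h5 : ∀ᶠ w in 𝓝 ((0, 0) : F × F), ∃ z, Φ z = w := by
    rw [← hmap, Filter.eventually_map]
    exact Filter.Eventually.of_forall fun z => ⟨z, rfl⟩
  have h6 : Tendsto (fun e : F => ((e, 0) : F × F)) (𝓝 0) (𝓝 (0, 0)) := by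
    exact (Continuous.prodMk_left (0 : F)).tendsto' _ _ rfl
  filter_upwards [h6.eventually h5] with e he
  obtain ⟨z, hz⟩ := he
  have h7 : z.1 = e := congrArg Prod.fst hz
  refine ⟨z.2, ?_⟩
  rw [← h7]
  exact congrArg Prod.snd hz

end Pool.Agent.Helper37.OC
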